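import Pool.Agent.W256.Curve6

/-!
# Degrees over the field generated by a generic combination
-/

set_option autoImplicit false

namespace Pool.Agent.TH519.GL

open Polynomial IntermediateField Module Pool.Agent.W256 Pool.Agent.H297R2

variable {K F : Type*} [Field K] [Field F] [Algebra K F]

/-- A combination which bounds finitely many elements and generates them over `K(t)`. -/
theorem exists_comb [CharZero K] {N : ℕ} (t : F) (hfin : FiniteDimensional K⟮t⟯ F) (x : Fin N → F)
    (s : Finset (Fin N)) :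
    ∃ b : Fin N → K, ∀ i ∈ s, IntAt K (∑ j, algebraMap K F (b j) * x j) (x i) 1 ∧
      x i ∈ K⟮t⟯⟮∑ j, algebraMap K F (b j) * x j⟯ := by
  classical
  have hchar : CharZero F := charZero_of_injective_algebraMap (algebraMap K F).injective
  have halgF : Algebra.IsAlgebraic K⟮t⟯ F := Algebra.IsAlgebraic.of_finite _ _
  have hsep : Algebra.IsSeparable K⟮t⟯ F := inferInstance
  have hfinF : Finite (IntermediateField K⟮t⟯ F) :=
    (Field.exists_primitive_element_iff_finite_intermediateField K⟮t⟯ F).mp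
      ⟨halgF, Field.exists_primitive_element K⟮t⟯ F⟩
  induction s using Finset.induction_on with
  | empty => exact ⟨0, fun i hi => absurd hi (Finset.notMem_empty i)⟩
  | insert i s his ih =>
    obtain ⟨b, hb⟩ := ih
    set h := ∑ j, algebraMap K F (b j) * x j with hh
    obtain ⟨P, hP0, hP⟩ := dep_of_algebraic (K := K) t halgF h (x i)
    obtain ⟨θ, hθ, hθt⟩ := normal_step h (x i) P hP0 hP
    have hT : {a : K | θ.eval (-a) ≠ 0}.Infinite := by
      have h1 : (θ.roots.toFinset.image (fun x => -x) : Set K)ᶜ ⊆ {a : K | θ.eval (-a) ≠ 0} := by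
        intro a ha h0
        apply ha
        simp only [Finset.coe_image, Set.mem_image, Finset.mem_coe, Multiset.mem_toFinset]
        exact ⟨-a, (mem_roots hθ).mpr h0, neg_neg a⟩
      exact (Set.Finite.infinite_compl (Finset.finite_toSet _)).mono h1
    obtain ⟨a, ha, a', -, hne, heq⟩ := hT.exists_ne_map_eq_of_mapsTo
      (f := fun a => K⟮t⟯⟮h + algebraMap K F a * x i⟯) (Set.mapsTo_univ _ _) Set.finite_univ
    obtain ⟨h1, h2⟩ := hθt a ha
    have hsum : ∑ j, algebraMap K F (b j + if j = i then a else 0) * x j =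
        h + algebraMap K F a * x i := by
      simp only [map_add, add_mul, Finset.sum_add_distrib]
      congr 1
      rw [Finset.sum_eq_single i]
      · rw [if_pos rfl]
      · intro j _ hj
        rw [if_neg hj, map_zero, zero_mul]
      · intro h0; exact absurd (Finset.mem_univ i) h0
    refine ⟨fun j => b j + if j = i then a else 0, ?_⟩
    simp only [hsum]
    set w := h + algebraMap K F a * x i with hw
    have hwm : w ∈ K⟮t⟯⟮w⟯ := mem_adjoin_simple_self _ w
    have hwm' : h + algebraMap K F a' * x i ∈ K⟮t⟯⟮w⟯ := by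
      have : K⟮t⟯⟮w⟯ = K⟮t⟯⟮h + algebraMap K F a' * x i⟯ := heq
      rw [this]
      exact mem_adjoin_simple_self _ _
    have hK : ∀ k : K, algebraMap K F k ∈ K⟮t⟯⟮w⟯ := by
      intro k
      have h3 : algebraMap K F k = algebraMap K⟮t⟯ F (algebraMap K K⟮t⟯ k) :=
        IsScalarTower.algebraMap_apply K K⟮t⟯ F k
      rw [h3]
      exact IntermediateField.algebraMap_mem _ _
    have hxm : x i ∈ K⟮t⟯⟮w⟯ := by
      have h3 : algebraMap K F (a - a')⁻¹ * (w - (h + algebraMap K F a' * x i)) ∈ K⟮t⟯⟮w⟯ :=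
        mul_mem (hK _) (sub_mem hwm hwm')
      have h4 : algebraMap K F (a - a')⁻¹ * (w - (h + algebraMap K F a' * x i)) = x i := by
        have h5 : w - (h + algebraMap K F a' * x i) = algebraMap K F (a - a') * x i := by
          rw [hw, map_sub]; ring
        rw [h5, ← mul_assoc, ← map_mul, inv_mul_cancel₀ (sub_ne_zero.mpr hne), map_one, one_mul]
      rwa [h4] at h3
    have hhm : h ∈ K⟮t⟯⟮w⟯ := by
      have h3 : w - algebraMap K F a * x i ∈ K⟮t⟯⟮w⟯ := sub_mem hwm (mul_mem (hK _) hxm)
      rwa [hw, add_sub_cancel_right] at h3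
    intro j hj
    rcases Finset.mem_insert.mp hj with rfl | hj
    · exact ⟨h2, hxm⟩
    · refine ⟨h1.trans (hb j hj).1, ?_⟩
      have h3 : K⟮t⟯⟮h⟯ ≤ K⟮t⟯⟮w⟯ := by
        rw [adjoin_simple_le_iff]
        exact hhm
      exact h3 (hb j hj).2

/-- Growth bounds the degree of a function which bounds the space. -/
theorem le_of_growth [IsAlgClosed K] (g : F) (hg : Transcendental K g) [FiniteDimensional K⟮g⟯ F]
    (V : Submodule K F) [FiniteDimensional K V] (hVg : V ≤ intSub K g 1) (c : ℕ)
    (hgrow : ∀ m, 1 ≤ m → finrank K (V ^ m : Submodule K F) + c ≤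
      finrank K (V ^ (m + 1) : Submodule K F)) : c ≤ finrank K⟮g⟯ F := by
  have hub := finrank_pow_le g hg V hVg
  set n := finrank K⟮g⟯ F with hn
  have hlow : ∀ m, m * c ≤ finrank K (V ^ (m + 1) : Submodule K F) := by
    intro m
    induction m with
    | zero => simp
    | succ m ih =>
      have := hgrow (m + 1) (Nat.succ_le_succ (Nat.zero_le m))
      calc (m + 1) * c = m * c + c := by ring
        _ ≤ _ := Nat.add_le_add_right ih c
        _ ≤ _ := this
  have h1 := (hlow (n + 2)).trans (hub (n + 3))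
  by_contra h2
  push Not at h2
  have h3 : (n + 2) * (n + 1) ≤ (n + 2) * c := Nat.mul_le_mul_left _ h2
  have h4 : (n + 2) * (n + 1) ≤ (n + 3) * n + 1 := h3.trans h1
  nlinarith

/-- **Core.** -/
theorem core [IsAlgClosed K] [CharZero K] {N : ℕ} (t : F) (hfin : FiniteDimensional K⟮t⟯ F) (x : Fin N → F)
    (htop : adjoin K⟮t⟯ (Set.range x) = ⊤) (i₀ : Fin N)
    (hi₀ : ¬ ∃ c : K, x i₀ = algebraMap K F c) (c : ℕ)
    (hgrow : ∀ m, 1 ≤ m → finrank K ((Submodule.span K ({1} ∪ Set.range x)) ^ m :
      Submodule K F) + c ≤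
      finrank K ((Submodule.span K ({1} ∪ Set.range x)) ^ (m + 1) : Submodule K F)) :
    ∃ b : Fin N → K, ∀ d, DegLe K d (∑ j, algebraMap K F (b j) * x j) t → c ≤ d := by
  classical
  have halgF : Algebra.IsAlgebraic K⟮t⟯ F := Algebra.IsAlgebraic.of_finite _ _
  obtain ⟨b, hb⟩ := exists_comb t hfin x Finset.univ
  refine ⟨b, ?_⟩
  set h := ∑ j, algebraMap K F (b j) * x j with hh
  have hhc : ¬ ∃ c : K, h = algebraMap K F c := fun h1 =>
    hi₀ (const_of_intAt h1 (hb i₀ (Finset.mem_univ _)).1)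
  have hht : Transcendental K h := transcendental_of_not_const hhc
  have hVg : Submodule.span K ({1} ∪ Set.range x) ≤ intSub K h 1 := by
    rw [Submodule.span_le]
    rintro y (hy | ⟨i, rfl⟩)
    · rw [Set.mem_singleton_iff] at hy
      subst hy
      have := IntAt.const (K := K) h 1 1
      rwa [map_one] at this
    · exact (hb i (Finset.mem_univ _)).1
  have hVfd : FiniteDimensional K (Submodule.span K ({1} ∪ Set.range x)) :=
    FiniteDimensional.span_of_finite K ((Set.finite_singleton _).union (Set.finite_range x))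
  -- `t` is algebraic over `K(h)`
  obtain ⟨P, hP0, -, hP⟩ := degLe_of_minpoly (κ := K) (x := t) (y := h)
    (Algebra.IsAlgebraic.isAlgebraic h) le_rfl
  have hsw : DegLe K (Bivariate.swap P).natDegree h t :=
    ⟨Bivariate.swap P, swap_ne_zero hP0, le_rfl, by rw [Bivariate.aevalAeval_swap, hP]⟩
  obtain ⟨halg, -⟩ := hsw.minpoly_le hht K⟮h⟯ (AdjoinSimple.gen K h)
    (AdjoinSimple.algebraMap_gen K h)
  have htt : K⟮h⟯⟮t⟯ = ⊤ := by
    have h1 : K⟮t⟯⟮h⟯ = ⊤ := by
      rw [← top_le_iff, ← htop, adjoin_le_iff]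
      rintro _ ⟨i, rfl⟩
      exact (hb i (Finset.mem_univ _)).2
    rw [← top_le_iff]
    intro z _
    have h2 : z ∈ (K⟮t⟯⟮h⟯).restrictScalars K := by
      rw [mem_restrictScalars, h1]
      exact mem_top
    rw [adjoin_simple_comm] at h2
    exact h2
  have hfd1 : FiniteDimensional K⟮h⟯ K⟮h⟯⟮t⟯ := adjoin.finiteDimensional halg.isIntegral
  have hfd2 : FiniteDimensional K⟮h⟯ F := by
    rw [htt] at hfd1
    exact LinearEquiv.finiteDimensional (topEquiv (F := K⟮h⟯) (E := F)).toLinearEquiv
  have hfr : finrank K⟮h⟯ F = (minpoly K⟮h⟯ t).natDegree := by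
    rw [← adjoin.finrank halg.isIntegral, htt, finrank_top']
  have hle := le_of_growth h hht _ hVg c hgrow
  intro d hd
  obtain ⟨-, h3⟩ := hd.minpoly_le hht K⟮h⟯ (AdjoinSimple.gen K h)
    (AdjoinSimple.algebraMap_gen K h)
  omega

end Pool.Agent.TH519.GL
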