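import Pool.Agent.TH519.GL.Uni

/-!
# All exponentials simultaneously: the theorem
-/

set_option autoImplicit false

namespace Pool.Agent.TH519.GL

open Polynomial IntermediateField Module Pool.Agent.H297R2
open Pool.Agent.H301R2.SSE (QB mem_QB)
open Pool.Agent.H351R3.Gel (InK EF group alg_mono)

/-- The lines of the `ℚ`-space of algebraic numbers. -/
abbrev Line : Type := {W : Submodule ℚ QB // ∃ α : QB, α ≠ 0 ∧ W = Submodule.span ℚ {α}}

/-- a line is generated by each of its nonzero elements -/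
theorem line_gen (W : Line) (a : QB) (ha : a ≠ 0) (h : a ∈ W.1) : W.1 = Submodule.span ℚ {a} := by
  obtain ⟨W, α, hα, rfl⟩ := W
  obtain ⟨r, rfl⟩ := Submodule.mem_span_singleton.mp h
  have hr : r ≠ 0 := by
    rintro rfl
    exact ha (zero_smul _ _)
  exact (Submodule.span_singleton_smul_eq (IsUnit.mk0 r hr) α).symm

theorem line_disjoint (W W' : Line) : W.1 = W'.1 ∨ Disjoint W.1 W'.1 := by
  by_cases h : Disjoint W.1 W'.1
  · exact Or.inr h
  · left
    rw [Submodule.disjoint_def] at h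
    push Not at h
    obtain ⟨a, h1, h2, h3⟩ := h
    rw [line_gen W a h3 h1, line_gen W' a h3 h2]

/-- the combinations which are algebraic over the exponentials of the elements of `W` -/
noncomputable def lineSub {N : ℕ} (l : Fin N → ℂ) (W : Submodule ℚ QB) :
    Submodule QB (Fin N → QB) where
  carrier := {b | InK W (cmb l b)}
  add_mem' := by
    intro a b ha hb
    change InK W (cmb l (a + b))
    rw [cmb_add]
    exact InK.add ha hb
  zero_mem' := by
    change InK W (cmb l 0)
    rw [cmb_zero]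
    exact InK.zero W
  smul_mem' := by
    intro a b hb
    change InK W (cmb l (a • b))
    rw [cmb_smul]
    exact InK.smul a hb

theorem lineSub_indep {N : ℕ} (l : Fin N → ℂ) (halg : ∀ j, IsAlgebraic ℚ (Complex.exp (l j)))
    (hli : LinearIndependent ℚ l) : iSupIndep (fun W : Line => lineSub l W.1) := by
  classical
  rw [iSupIndep_iff_finsetSum_eq_zero_imp_eq_zero]
  intro s v hv hsum i hi
  have hsum' : ∑ W ∈ s, cmb l (v W) = cmb l (∑ W ∈ s, v W) := by
    clear hsum hi hv
    induction s using Finset.induction_on with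
    | empty => rw [Finset.sum_empty, Finset.sum_empty, cmb_zero]
    | insert a s ha ih => rw [Finset.sum_insert ha, Finset.sum_insert ha, cmb_add, ih]
  have h1 := group s (fun W : Line => W.1) (fun W => cmb l (v W))
    (fun W _ W' _ => line_disjoint W W') (fun W hW => hv W hW) (by
      rw [hsum', hsum, cmb_zero]
      exact QB.zero_mem) i hi {i} (by
      intro W
      rw [Finset.mem_singleton]
      constructor
      · rintro rfl
        exact ⟨hi, rfl⟩
      · rintro ⟨_, h⟩
        exact Subtype.ext h)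
  rw [Finset.sum_singleton] at h1
  exact cmb_notMem l halg hli _ h1

theorem EF_single (a : QB) : EF ![a] = QB⟮Complex.exp (a : ℂ)⟯ := by
  rw [EF]
  congr 1
  ext z
  simp

theorem inK_of_alg (a : QB) (ha : a ≠ 0) (W : Submodule ℚ QB) (haW : a ∈ W) (z : ℂ)
    (hz : IsAlgebraic QB⟮Complex.exp (a : ℂ)⟯ z) : InK W z := by
  refine ⟨1, ![a], ?_, ?_, ?_⟩
  · rw [linearIndependent_unique_iff]
    exact ha
  · intro i
    fin_cases i
    exact haW
  · rw [EF_single]
    exact hz

theorem alg_of_inK (a : QB) (z : ℂ) (hz : InK (Submodule.span ℚ {a}) z) :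
    IsAlgebraic QB⟮Complex.exp (a : ℂ)⟯ z := by
  obtain ⟨m, α, -, h2, h3⟩ := hz
  rw [← EF_single]
  refine alg_mono α ![a] ?_ h3
  intro j
  have : Set.range ![a] = {a} := by
    ext z
    simp [eq_comm]
  rw [this]
  exact h2 j

theorem transcendental_exp (a : QB) (ha : a ≠ 0) : Transcendental QB (Complex.exp (a : ℂ)) := by
  rw [tr_iff, mem_QB]
  exact Pool.Agent.H340R2.LW.transcendental_cexp _ (mem_QB.1 a.2) (fun h => ha (Subtype.ext h))

/-- one line -/
theorem per_line {N : ℕ} (hN : 0 < N) (l : Fin N → ℂ)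
    (halg : ∀ j, IsAlgebraic ℚ (Complex.exp (l j))) (hli : LinearIndependent ℚ l) (W : Line) :
    ∃ Δ : MvPolynomial (Fin N) QB, Δ ≠ 0 ∧ ∀ b : Fin N → QB, MvPolynomial.eval b Δ ≠ 0 →
      ∀ a : QB, a ≠ 0 → a ∈ W.1 → ∀ d, DegLe QB d (cmb l b) (Complex.exp (a : ℂ)) →
        (N + 1) ^ 2 / 4 ≤ d := by
  by_cases htop : lineSub l W.1 = ⊤
  · obtain ⟨a₀, ha₀, hW⟩ := W.2
    have hall : ∀ j, IsAlgebraic QB⟮Complex.exp (a₀ : ℂ)⟯ (l j) := by
      intro j
      apply alg_of_inK
      rw [← hW]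
      have h1 : Pi.single j 1 ∈ lineSub l W.1 := by rw [htop]; exact Submodule.mem_top
      have h2 : InK W.1 (cmb l (Pi.single j 1)) := h1
      rwa [cmb_single] at h2
    obtain ⟨Δ, h1, h2⟩ := line_case hN l halg hli _ (transcendental_exp a₀ ha₀) hall
    refine ⟨Δ, h1, fun b hb a ha haW d hd => ?_⟩
    rw [hW] at haW
    obtain ⟨r, rfl⟩ := Submodule.mem_span_singleton.mp haW
    have hr : r ≠ 0 := by
      rintro rfl
      exact ha (zero_smul _ _)
    refine h2 b hb r.num r.den (Rat.num_ne_zero.mpr hr) r.den_pos _ ?_ d hd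
    rw [← Complex.exp_nat_mul, ← Complex.exp_int_mul]
    congr 1
    have h3 : ((r • a₀ : QB) : ℂ) = (r : ℂ) * (a₀ : ℂ) := by
      rw [Algebra.smul_def]
      push_cast
      rfl
    rw [h3, ← mul_assoc]
    congr 1
    have h4 : (r : ℂ) = (r.num : ℂ) / (r.den : ℂ) := by exact_mod_cast (Rat.num_div_den r).symm
    have h5 : (r.den : ℂ) ≠ 0 := by exact_mod_cast r.den_ne_zero
    rw [h4]
    field_simp
  · obtain ⟨Δ, h1, h2⟩ := exists_form _ htop
    refine ⟨Δ, h1, fun b hb a ha haW d hd => absurd ?_ (h2 b hb)⟩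
    exact inK_of_alg a ha W.1 haW _ (swap_alg hd (transcendental_exp a ha))

/-- **All exponentials.** -/
theorem uniform_degree {N : ℕ} (l : Fin N → ℂ) (halg : ∀ j, IsAlgebraic ℚ (Complex.exp (l j)))
    (hli : LinearIndependent ℚ l) :
    ∃ Δ : MvPolynomial (Fin N) QB, Δ ≠ 0 ∧ ∀ b : Fin N → QB, MvPolynomial.eval b Δ ≠ 0 →
      ∀ a : QB, a ≠ 0 → ∀ d, DegLe QB d (cmb l b) (Complex.exp (a : ℂ)) →
        (N + 1) ^ 2 / 4 ≤ d := by
  classical
  rcases Nat.eq_zero_or_pos N with hN | hN
  · subst hN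
    exact ⟨1, one_ne_zero, fun b _ a _ d _ => by simp⟩
  have hfin : {W : Line | lineSub l W.1 ≠ ⊥}.Finite :=
    WellFoundedGT.finite_ne_bot_of_iSupIndep (lineSub_indep l halg hli)
  choose Δ h1 h2 using fun W : Line => per_line hN l halg hli W
  refine ⟨MvPolynomial.X ⟨0, hN⟩ * ∏ W ∈ hfin.toFinset, Δ W, ?_, ?_⟩
  · exact mul_ne_zero (MvPolynomial.X_ne_zero _) (Finset.prod_ne_zero_iff.mpr fun W _ => h1 W)
  intro b hb a ha d hd
  rw [map_mul, map_prod, MvPolynomial.eval_X] at hb
  have hb1 := left_ne_zero_of_mul hb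
  have hb2 := right_ne_zero_of_mul hb
  set W : Line := ⟨Submodule.span ℚ {a}, a, ha, rfl⟩ with hW
  have haW : a ∈ W.1 := Submodule.mem_span_singleton_self a
  by_cases hbot : lineSub l W.1 = ⊥
  · exfalso
    have h3 : b ∈ lineSub l W.1 := inK_of_alg a ha W.1 haW _
      (swap_alg hd (transcendental_exp a ha))
    rw [hbot, Submodule.mem_bot] at h3
    exact hb1 (congrFun h3 _)
  · exact h2 W b (Finset.prod_ne_zero_iff.mp hb2 W (hfin.mem_toFinset.mpr hbot)) a ha haW d hd

/-- linear independence over the field generated by `h` is a bound for the degree -/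
theorem indep_of_degLe (t h : ℂ) (c : ℕ) (H : ∀ d, DegLe QB d h t → c ≤ d)
    (p : Fin c → QB[X]) (hp : ∑ i, aeval h (p i) * t ^ (i : ℕ) = 0) : p = 0 := by
  classical
  by_contra hne
  obtain ⟨i₀, hi₀⟩ : ∃ i, p i ≠ 0 := by
    by_contra h1
    push Not at h1
    exact hne (funext h1)
  have hc : 0 < c := lt_of_le_of_lt (Nat.zero_le _) i₀.2
  set P : QB[X][X] := ∑ i : Fin c, monomial (i : ℕ) (p i) with hP
  have hcoef : P.coeff (i₀ : ℕ) = p i₀ := by
    rw [hP, finsetSum_coeff, Finset.sum_eq_single i₀]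
    · rw [coeff_monomial, if_pos rfl]
    · intro i _ hi
      rw [coeff_monomial, if_neg fun h1 => hi (Fin.ext h1)]
    · intro h0; exact absurd (Finset.mem_univ _) h0
  have h1 : DegLe QB (c - 1) h t := by
    refine ⟨P, ?_, ?_, ?_⟩
    · intro h0
      apply hi₀
      rw [← hcoef, h0, coeff_zero]
    · apply natDegree_sum_le_of_forall_le
      intro i _
      refine (natDegree_monomial_le _).trans ?_
      have := i.2
      omega
    · rw [aevalAeval_eq_eval₂, hP, eval₂_finsetSum, ← hp]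
      refine Finset.sum_congr rfl fun i _ => ?_
      rw [eval₂_monomial]
      rfl
  have := H _ h1
  omega

end Pool.Agent.TH519.GL
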