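import Pool.Agent.TH519.GL.Open
import Pool.Agent.TH519.GL.Core

/-!
# Degrees over the field generated by a generic combination of logarithms
-/

set_option autoImplicit false

namespace Pool.Agent.TH519.GL

open Polynomial IntermediateField Module Pool.Agent.W256 Pool.Agent.H297R2

section

variable {K F L : Type*} [Field K] [Field F] [Field L] [Algebra K F] [Algebra K L]

theorem aevalAeval_map (f : F →ₐ[K] L) (x y : F) (P : K[X][X]) :
    aevalAeval (f x) (f y) P = f (aevalAeval x y P) := by
  rw [aevalAeval_eq_eval₂, aevalAeval_eq_eval₂]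
  have h1 := hom_eval₂ P (aeval x : K[X] →ₐ[K] F).toRingHom f.toRingHom y
  have h2 : f.toRingHom.comp (aeval x : K[X] →ₐ[K] F).toRingHom =
      (aeval (f x) : K[X] →ₐ[K] L).toRingHom := by
    apply RingHom.ext
    intro p
    exact (aeval_algHom_apply f x p).symm
  rw [h2] at h1
  exact h1.symm

theorem degLe_map_iff (f : F →ₐ[K] L) (x y : F) (d : ℕ) :
    DegLe K d (f x) (f y) ↔ DegLe K d x y := by
  constructor
  · rintro ⟨P, h1, h2, h3⟩
    refine ⟨P, h1, h2, ?_⟩
    rw [aevalAeval_map] at h3
    exact (map_eq_zero f).1 h3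
  · rintro ⟨P, h1, h2, h3⟩
    exact ⟨P, h1, h2, by rw [aevalAeval_map, h3, map_zero]⟩

theorem swap_alg {d : ℕ} {x y : F} (h : DegLe K d x y) (hy : Transcendental K y) :
    IsAlgebraic K⟮y⟯ x := by
  obtain ⟨P, hP0, -, hP⟩ := h
  have hsw : DegLe K (Bivariate.swap P).natDegree y x :=
    ⟨Bivariate.swap P, swap_ne_zero hP0, le_rfl, by rw [Bivariate.aevalAeval_swap, hP]⟩
  exact (hsw.minpoly_le hy K⟮y⟯ (AdjoinSimple.gen K y) (AdjoinSimple.algebraMap_gen K y)).1

/-- Monomials of small degree in `t` are independent if `t` has large degree over `K(h)`. -/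
theorem indep_of_deg (t h : F) (c : ℕ) (H : ∀ d, DegLe K d h t → c ≤ d) (I : Finset (ℕ × ℕ))
    (hI : ∀ s ∈ I, s.1 < c) (co : I → K) (hco : ∑ s, co s • (t ^ s.1.1 * h ^ s.1.2) = 0) :
    ∀ s, co s = 0 := by
  classical
  set P : K[X][X] := ∑ s : I, monomial s.1.1 (monomial s.1.2 (co s)) with hP
  have hcoef : ∀ s : I, (P.coeff s.1.1).coeff s.1.2 = co s := by
    intro s
    rw [hP, finsetSum_coeff, finsetSum_coeff, Finset.sum_eq_single s]
    · rw [coeff_monomial, if_pos rfl, coeff_monomial, if_pos rfl]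
    · intro s' _ hs'
      rw [coeff_monomial]
      split_ifs with h1
      · rw [coeff_monomial, if_neg]
        intro h2
        exact hs' (Subtype.ext (Prod.ext h1 h2))
      · rw [coeff_zero]
    · intro h0; exact absurd (Finset.mem_univ s) h0
  by_contra hne
  push Not at hne
  obtain ⟨s₀, hs₀⟩ := hne
  have hc := hI s₀.1 s₀.2
  have hP0 : P ≠ 0 := by
    intro h0
    apply hs₀
    rw [← hcoef s₀, h0, coeff_zero, coeff_zero]
  have h1 : DegLe K (c - 1) h t := by
    refine ⟨P, hP0, ?_, ?_⟩
    · apply natDegree_sum_le_of_forall_le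
      intro s _
      refine (natDegree_monomial_le _).trans ?_
      have := hI s.1 s.2
      omega
    · rw [aevalAeval_eq_eval₂, hP, eval₂_finsetSum, ← hco]
      refine Finset.sum_congr rfl fun s _ => ?_
      rw [eval₂_monomial]
      change aeval h (monomial s.1.2 (co s)) * t ^ s.1.1 = _
      rw [aeval_monomial, Algebra.smul_def]
      ring
  have := H _ h1
  omega

end

end Pool.Agent.TH519.GL
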