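import Mathlib
import Pool.Agent.H297R2.Generic

/-!
# Openness of the linear independence of monomials in `t` and a linear combination
-/

set_option autoImplicit false

namespace Pool.Agent.TH519.GL

open Finset Module Pool.Agent.H297R2

/-- Openness of the linear independence of finitely many products `t ^ i * h ^ j`, where `h` is a
linear combination of given elements. -/
theorem mono_open {κ C : Type*} [Field κ] [IsAlgClosed κ] [Field C] [Algebra κ C] {N : ℕ}
    (t : C) (l : Fin N → C) (I : Finset (ℕ × ℕ)) (b₀ : Fin N → κ)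
    (h : ∀ c : I → κ, ∑ s, c s • (t ^ s.1.1 * (∑ j, algebraMap κ C (b₀ j) * l j) ^ s.1.2) = 0 →
      ∀ s, c s = 0) :
    ∃ Δ : MvPolynomial (Fin N) κ, Δ ≠ 0 ∧ Δ.totalDegree ≤ ∑ s ∈ I, s.2 ∧
      ∀ b : Fin N → κ, MvPolynomial.eval b Δ ≠ 0 →
        ∀ c : I → κ, ∑ s, c s • (t ^ s.1.1 * (∑ j, algebraMap κ C (b j) * l j) ^ s.1.2) = 0 →
          ∀ s, c s = 0 := by
  classical
  set U : Set C := Set.range l ∪ {t} with hU
  set R := Algebra.adjoin κ U with hR
  have hUfin : U.Finite := (Set.finite_range l).union (Set.finite_singleton t)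
  have hRfg : Algebra.FiniteType κ R := by
    rw [← Subalgebra.fg_iff_finiteType]
    exact ⟨hUfin.toFinset, by simp [hR]⟩
  set lR : Fin N → R := fun j => ⟨l j, Algebra.subset_adjoin (Or.inl ⟨j, rfl⟩)⟩ with hlR
  set tR : R := ⟨t, Algebra.subset_adjoin (Or.inr rfl)⟩ with htR
  set mono : (Fin N → κ) → I → R := fun b s =>
    tR ^ s.1.1 * (∑ j, algebraMap κ R (b j) * lR j) ^ s.1.2 with hmono
  have hmonoC : ∀ b s, ((mono b s : R) : C) =
      t ^ s.1.1 * (∑ j, algebraMap κ C (b j) * l j) ^ s.1.2 := by
    intro b s
    rw [hmono]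
    push_cast
    rfl
  have hli : ∀ c : I → κ, ∑ s, c s • mono b₀ s = 0 → ∀ s, c s = 0 := by
    intro c hc
    apply h c
    have h1 := congrArg (fun x : R => (x : C)) hc
    simp only [ZeroMemClass.coe_zero] at h1
    rw [← h1]
    push_cast
    apply Finset.sum_congr rfl
    intro s _
    rw [hmonoC]
  set W₀ : Submodule κ R := Submodule.span κ (Set.range (mono b₀)) with hW₀
  have hfin : Module.Finite κ W₀ := FiniteDimensional.span_of_finite κ (Set.finite_range _)
  obtain ⟨φ, hφ⟩ := exists_points κ R (G := Unit) (Fintype.card I) (fun _ => W₀) (fun g => by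
    rw [hW₀]
    exact finrank_range_le_card _)
  have e : I ≃ Fin (Fintype.card I) := Fintype.equivFin _
  -- the determinant
  set M : Matrix I I (MvPolynomial (Fin N) κ) := Matrix.of fun s e' =>
    MvPolynomial.C (φ (e e') tR) ^ s.1.1 *
      (∑ j, MvPolynomial.X j * MvPolynomial.C (φ (e e') (lR j))) ^ s.1.2 with hM
  have hMeval : ∀ b : Fin N → κ, ∀ s e', MvPolynomial.eval b (M s e') = φ (e e') (mono b s) := by
    intro b s e'
    rw [hM, hmono]
    simp only [Matrix.of_apply, map_pow, map_sum, map_mul, MvPolynomial.eval_X,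
      MvPolynomial.eval_C, AlgHom.commutes, Algebra.algebraMap_self, RingHom.id_apply]
  have hdet : ∀ b : Fin N → κ, MvPolynomial.eval b M.det =
      (Matrix.of fun s e' => φ (e e') (mono b s)).det := by
    intro b
    rw [RingHom.map_det]
    congr 1
    ext s e'
    rw [RingHom.mapMatrix_apply, Matrix.map_apply, hMeval, Matrix.of_apply]
  have hne : ∀ b : Fin N → κ, MvPolynomial.eval b M.det ≠ 0 →
      ∀ c : I → κ, ∑ s, c s • mono b s = 0 → ∀ s, c s = 0 := by
    intro b hb c hc
    rw [hdet] at hb
    have h2 := Matrix.eq_zero_of_vecMul_eq_zero hb (v := c) (by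
      funext j
      have h3 := congrArg (φ (e j)) hc
      rw [map_sum, map_zero] at h3
      rw [Pi.zero_apply, ← h3, Matrix.vecMul, dotProduct]
      apply Finset.sum_congr rfl
      intro s _
      simp only [map_smul, Matrix.of_apply, smul_eq_mul])
    intro s
    rw [h2]
    rfl
  refine ⟨M.det, ?_, ?_, ?_⟩
  · intro h0
    have h1 : (Matrix.of fun s e' => φ (e e') (mono b₀ s)).det = 0 := by
      rw [← hdet, h0, map_zero]
    rw [← Matrix.exists_vecMul_eq_zero_iff] at h1
    obtain ⟨c, hc0, hc⟩ := h1
    apply hc0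
    funext s
    apply hli c _ s
    apply hφ ()
    · apply Submodule.sum_mem
      intro s _
      exact Submodule.smul_mem _ _ (Submodule.subset_span ⟨s, rfl⟩)
    · intro j
      have h2 := congrFun hc (e.symm j)
      rw [Pi.zero_apply, Matrix.vecMul, dotProduct] at h2
      rw [map_sum, ← h2]
      apply Finset.sum_congr rfl
      intro s _
      simp only [map_smul, Matrix.of_apply, smul_eq_mul, Equiv.apply_symm_apply]
  · rw [Matrix.det_apply]
    apply MvPolynomial.totalDegree_finsetSum_le
    intro π _
    have h1 : (Equiv.Perm.sign π • ∏ e', M (π e') e').totalDegree ≤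
        (∏ e', M (π e') e').totalDegree := by
      rcases Int.units_eq_one_or (Equiv.Perm.sign π) with h2 | h2 <;> rw [h2]
      · simp
      · simp [MvPolynomial.totalDegree_neg]
    refine h1.trans ((MvPolynomial.totalDegree_finsetProd _ _).trans ?_)
    calc ∑ e', (M (π e') e').totalDegree ≤ ∑ e' : I, (π e').1.2 := by
          apply Finset.sum_le_sum
          intro e' _
          rw [hM, Matrix.of_apply]
          refine (MvPolynomial.totalDegree_mul _ _).trans ?_
          have h4 : (MvPolynomial.C (φ (e e') tR) ^ (π e').1.1 :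
              MvPolynomial (Fin N) κ).totalDegree = 0 := by
            rw [← map_pow, MvPolynomial.totalDegree_C]
          rw [h4, zero_add]
          refine (MvPolynomial.totalDegree_pow _ _).trans ?_
          have h3 : (∑ j, MvPolynomial.X j * MvPolynomial.C (φ (e e') (lR j)) :
              MvPolynomial (Fin N) κ).totalDegree ≤ 1 := by
            apply MvPolynomial.totalDegree_finsetSum_le
            intro j _
            refine (MvPolynomial.totalDegree_mul _ _).trans ?_
            rw [MvPolynomial.totalDegree_X, MvPolynomial.totalDegree_C]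
          calc _ ≤ (π e').1.2 * 1 := Nat.mul_le_mul_left _ h3
            _ = (π e').1.2 := mul_one _
      _ = ∑ s : I, s.1.2 := Equiv.sum_comp π (fun s : I => s.1.2)
      _ = ∑ s ∈ I, s.2 := Finset.sum_coe_sort I (fun s => s.2)
  · intro b hb c hc
    apply hne b hb c
    apply Subtype.ext
    rw [ZeroMemClass.coe_zero, ← hc]
    push_cast
    apply Finset.sum_congr rfl
    intro s _
    rw [hmonoC]

end Pool.Agent.TH519.GL
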