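import Pool.Agent.H23R2.Der

/-!
# Extending derivations
-/

set_option autoImplicit false

namespace Pool.Agent.TH519.GL

open TensorProduct

/-- a ring homomorphism to the dual numbers lifting an injective homomorphism to a field of
characteristic zero comes from a derivation of the field -/
theorem exists_der {U : Type*} [Field U] [CharZero U] {R : Type*} [CommRing R] (f : R →+* U)
    (hf : Function.Injective f) (θ : R →+* DualNumber U) (hθ : ∀ r, (θ r).fst = f r) :
    ∃ D : Derivation ℤ U U, ∀ r, D (f r) = (θ r).snd := by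
  have hdom : IsDomain R := hf.isDomain f
  let g0 : FractionRing R →+* U := IsFractionRing.lift (K := FractionRing R) hf
  have hch : CharZero (FractionRing R) := g0.charZero
  let π : DualNumber U →+* U := (TrivSqZeroExt.fstHom U U U).toRingHom
  have hπt : π.comp θ = f := RingHom.ext hθ
  have ht : ∀ y : nonZeroDivisors R, IsUnit (θ y) := by
    intro y
    rw [TrivSqZeroExt.isUnit_iff_isUnit_fst, hθ, isUnit_iff_ne_zero]
    intro h2
    rw [map_eq_zero_iff f hf] at h2
    exact nonZeroDivisors.ne_zero y.2 h2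
  let θ' : FractionRing R →+* DualNumber U := IsLocalization.lift ht
  have hθ' : π.comp θ' = g0 := by
    apply IsLocalization.ringHom_ext (nonZeroDivisors R)
    rw [RingHom.comp_assoc, IsLocalization.lift_comp, hπt]
    exact RingHom.ext fun x => (IsFractionRing.lift_algebraMap hf x).symm
  have hπs : Function.Surjective π := fun x => ⟨TrivSqZeroExt.inl x, rfl⟩
  have hsq : IsNilpotent (RingHom.ker π) := by
    refine ⟨2, ?_⟩
    have h1 : RingHom.ker π * RingHom.ker π ≤ ⊥ := by
      rw [Ideal.mul_le]
      intro a ha b hb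
      have ha' : a.fst = 0 := ha
      have hb' : b.fst = 0 := hb
      rw [Ideal.mem_bot]
      ext
      · simp [ha']
      · simp [ha', hb']
    have h2 : RingHom.ker π ^ 2 = RingHom.ker π * RingHom.ker π := sq _
    rw [h2]
    exact le_bot_iff.1 h1
  obtain ⟨Φ, hΦ1, hΦ2⟩ := Pool.Agent.H23R2.exists_lift g0 (DualNumber U) π hπs hsq θ' hθ'
  have hfst : ∀ x, (Φ x).fst = x := hΦ1
  let D : Derivation ℤ U U := Derivation.mk'
    ({ toFun := fun x => (Φ x).snd
       map_add' := fun x y => by simp
       map_smul' := fun c x => by simp } : U →ₗ[ℤ] U)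
    (by
      intro a b
      show (Φ (a * b)).snd = a • (Φ b).snd + b • (Φ a).snd
      rw [map_mul, TrivSqZeroExt.snd_mul, hfst, hfst]
      simp [mul_comm])
  refine ⟨D, fun r => ?_⟩
  have h1 : g0 (algebraMap R _ r) = f r := IsFractionRing.lift_algebraMap hf r
  show (Φ (f r)).snd = _
  rw [← h1, hΦ2, IsLocalization.lift_eq]

/-- partial derivatives extend -/
theorem exists_partial {K κ : Type*} [Field K] [Field κ] [CharZero κ] {N : ℕ} (i : K →+* κ)
    (b : Fin N → κ) (hb : Function.Injective (MvPolynomial.eval₂Hom i b)) (k : Fin N) :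
    ∃ d : Derivation ℤ κ κ, (∀ a, d (i a) = 0) ∧ ∀ m, d (b m) = if m = k then 1 else 0 := by
  classical
  obtain ⟨w, hw⟩ : ∃ w : Fin N → κ, ∀ m, w m = if m = k then 1 else 0 := ⟨_, fun m => rfl⟩
  set θ : MvPolynomial (Fin N) K →+* DualNumber κ :=
    MvPolynomial.eval₂Hom ((TrivSqZeroExt.inlHom κ κ).comp i)
      (fun m => TrivSqZeroExt.inl (b m) + TrivSqZeroExt.inr (w m)) with hθ
  have h1 : ((TrivSqZeroExt.fstHom κ κ κ).toRingHom).comp θ = MvPolynomial.eval₂Hom i b := by
    apply MvPolynomial.ringHom_ext
    · intro r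
      simp [hθ]
    · intro m
      simp [hθ]
  obtain ⟨d, hd⟩ := exists_der (MvPolynomial.eval₂Hom i b) hb θ
    (fun r => RingHom.congr_fun h1 r)
  refine ⟨d, fun a => ?_, fun m => ?_⟩
  · have := hd (MvPolynomial.C a)
    simpa [hθ] using this
  · have := hd (MvPolynomial.X m)
    rw [← hw]
    simpa [hθ] using this

/-- a derivation of a field which is linearly disjoint from another field extends to a derivation
vanishing on the other field -/
theorem exists_ext_der {K κ C U : Type} [Field K] [Field κ] [Field C] [Field U] [CharZero U]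
    [Algebra K C] (i : K →+* κ) (p : κ →+* U) (q : C →+* U)
    (hpq : ∀ a, p (i a) = q (algebraMap K C a))
    (hdis : ∀ (ι : Type) (s : Finset ι) (z : ι → C) (c : ι → κ), LinearIndependent K z →
      ∑ m ∈ s, p (c m) * q (z m) = 0 → ∀ m ∈ s, c m = 0)
    (d : Derivation ℤ κ κ) (hd : ∀ a, d (i a) = 0) :
    ∃ D : Derivation ℤ U U, (∀ c, D (p c) = p (d c)) ∧ ∀ z, D (q z) = 0 := by
  classical
  let _ : Algebra K κ := i.toAlgebra
  let _ : Algebra K U := (p.comp i).toAlgebra
  let pa : κ →ₐ[K] U := { p with commutes' := fun a => rfl }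
  let qa : C →ₐ[K] U := { q with commutes' := fun a => (hpq a).symm }
  let f : κ ⊗[K] C →ₐ[K] U := Algebra.TensorProduct.lift pa qa (fun _ _ => Commute.all _ _)
  have hf1 : ∀ (c : κ) (z : C), f (c ⊗ₜ z) = p c * q z := by
    intro c z
    exact Algebra.TensorProduct.lift_tmul _ _ _ _ _
  let θ1 : κ →ₐ[K] DualNumber U :=
    { toFun := fun c => TrivSqZeroExt.inl (p c) + TrivSqZeroExt.inr (p (d c))
      map_one' := by simp
      map_zero' := by simp
      map_add' := fun x y => by
        ext
        · simp
        · simp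
      map_mul' := fun x y => by
        ext
        · simp
        · simp [Derivation.leibniz, mul_comm]
      commutes' := fun a => by
        have h1 : algebraMap K κ a = i a := rfl
        have h2 : (algebraMap K (DualNumber U) a) = TrivSqZeroExt.inl (p (i a)) := rfl
        rw [h1, hd, map_zero, h2, TrivSqZeroExt.inr_zero, add_zero] }
  let θ2 : C →ₐ[K] DualNumber U :=
    { toFun := fun z => TrivSqZeroExt.inl (q z)
      map_one' := by simp
      map_zero' := by simp
      map_add' := fun x y => by simp
      map_mul' := fun x y => by simp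
      commutes' := fun a => by
        have h2 : (algebraMap K (DualNumber U) a) = TrivSqZeroExt.inl (p (i a)) := rfl
        rw [h2, hpq] }
  let θ : κ ⊗[K] C →ₐ[K] DualNumber U :=
    Algebra.TensorProduct.lift θ1 θ2 (fun _ _ => Commute.all _ _)
  have hθ1 : ∀ (c : κ) (z : C), θ (c ⊗ₜ z) = θ1 c * θ2 z := by
    intro c z
    exact Algebra.TensorProduct.lift_tmul _ _ _ _ _
  have hfst : ∀ r, (θ r).fst = f r := by
    intro r
    induction r using TensorProduct.induction_on with
    | zero => simp
    | tmul c z =>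
      rw [hθ1, hf1, TrivSqZeroExt.fst_mul]
      change (TrivSqZeroExt.inl (p c) + TrivSqZeroExt.inr (p (d c)) : DualNumber U).fst *
        (TrivSqZeroExt.inl (q z) : DualNumber U).fst = _
      simp
    | add x y hx hy => rw [map_add, map_add, TrivSqZeroExt.fst_add, hx, hy]
  have hinj : Function.Injective f := by
    rw [injective_iff_map_eq_zero]
    intro r hr
    let e := Module.Free.chooseBasis K C
    let E := Algebra.TensorProduct.basis κ e
    have h1 := E.linearCombination_repr r
    rw [Finsupp.linearCombination_apply, Finsupp.sum] at h1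
    have h2 : ∑ m ∈ (E.repr r).support, p (E.repr r m) * q (e m) = 0 := by
      rw [← hr]
      conv_rhs => rw [← h1]
      rw [map_sum]
      refine Finset.sum_congr rfl fun m _ => ?_
      rw [Algebra.TensorProduct.basis_apply, TensorProduct.smul_tmul', smul_eq_mul, mul_one, hf1]
    have h3 := hdis _ _ _ _ e.linearIndependent h2
    rw [← h1]
    refine Finset.sum_eq_zero fun m hm => ?_
    rw [h3 m hm, zero_smul]
  obtain ⟨D, hD⟩ := exists_der (f : κ ⊗[K] C →+* U) hinj (θ : κ ⊗[K] C →+* DualNumber U) hfst
  refine ⟨D, fun c => ?_, fun z => ?_⟩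
  · have h1 := hD (c ⊗ₜ 1)
    have h2 : (f : κ ⊗[K] C →+* U) (c ⊗ₜ 1) = p c := by
      change f (c ⊗ₜ 1) = _
      rw [hf1, map_one, mul_one]
    rw [h2] at h1
    rw [h1]
    change (θ (c ⊗ₜ 1)).snd = _
    rw [hθ1, map_one, mul_one]
    change (TrivSqZeroExt.inl (p c) + TrivSqZeroExt.inr (p (d c)) : DualNumber U).snd = _
    simp
  · have h1 := hD ((1 : κ) ⊗ₜ z)
    have h2 : (f : κ ⊗[K] C →+* U) ((1 : κ) ⊗ₜ z) = q z := by
      change f ((1 : κ) ⊗ₜ z) = _
      rw [hf1, map_one, one_mul]
    rw [h2] at h1
    rw [h1]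
    change (θ ((1 : κ) ⊗ₜ z)).snd = _
    rw [hθ1, map_one, one_mul]
    change (TrivSqZeroExt.inl (q z) : DualNumber U).snd = _
    simp

end Pool.Agent.TH519.GL
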