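import Pool.Agent.TH519.GL.U2

/-!
# Slopes of families of relations
-/

set_option autoImplicit false

namespace Pool.Agent.TH519.GL

open Filter
open Pool.Agent.H301R2.SSE (QB mem_QB)

/-- Leibniz rule for two-variable polynomial expressions -/
theorem der_sum {F : Type*} [Field F] (D : Derivation ℤ F F) (S T : Finset ℕ) (q : ℕ → ℕ → F)
    (X Y : F) :
    D (∑ s ∈ S, ∑ t ∈ T, q s t * (X ^ s * Y ^ t)) =
      (∑ s ∈ S, ∑ t ∈ T, D (q s t) * (X ^ s * Y ^ t)) +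
      (∑ s ∈ S, ∑ t ∈ T, q s t * (((s : F) * X ^ (s - 1)) * Y ^ t)) * D X +
      (∑ s ∈ S, ∑ t ∈ T, q s t * (X ^ s * ((t : F) * Y ^ (t - 1)))) * D Y := by
  rw [map_sum, Finset.sum_mul, Finset.sum_mul, ← Finset.sum_add_distrib,
    ← Finset.sum_add_distrib]
  refine Finset.sum_congr rfl fun s _ => ?_
  rw [map_sum, Finset.sum_mul, Finset.sum_mul, ← Finset.sum_add_distrib,
    ← Finset.sum_add_distrib]
  refine Finset.sum_congr rfl fun t _ => ?_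
  rw [D.leibniz, D.leibniz, D.leibniz_pow, D.leibniz_pow]
  simp only [smul_eq_mul, nsmul_eq_mul]
  ring

/-- eigenvalues are algebraic -/
theorem eig_mem {N : ℕ} (J : Fin N → Fin N → QB) (w : Fin N → ℂ) (hw : ∃ m, w m ≠ 0) (A : ℂ)
    (h : ∀ k, ∑ m, (J k m : ℂ) * w m = A * w k) : A ∈ QB := by
  classical
  have h1 : IsIntegral QB A := by
    refine isIntegral_of_smul_mem_submodule (M := ℂ) (Submodule.span QB (Set.range w)) ?_
      (Submodule.fg_span (Set.finite_range w)) A ?_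
    · obtain ⟨m, hm⟩ := hw
      intro h2
      apply hm
      have h3 : w m ∈ Submodule.span QB (Set.range w) := Submodule.subset_span ⟨m, rfl⟩
      rw [h2, Submodule.mem_bot] at h3
      exact h3
    · intro z hz
      induction hz using Submodule.span_induction with
      | mem z hz =>
        obtain ⟨k, rfl⟩ := hz
        rw [smul_eq_mul, ← h k]
        refine Submodule.sum_mem _ fun m _ => ?_
        have h2 : (J k m : ℂ) * w m = J k m • w m := by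
          rw [Algebra.smul_def]; rfl
        rw [h2]
        exact Submodule.smul_mem _ _ (Submodule.subset_span ⟨m, rfl⟩)
      | zero => rw [smul_zero]; exact Submodule.zero_mem _
      | add x y _ _ hx hy => rw [smul_add]; exact Submodule.add_mem _ hx hy
      | smul c x _ hx => rw [smul_comm]; exact Submodule.smul_mem _ _ hx
  by_contra h2
  exact (tr_iff.mpr h2) h1.isAlgebraic

variable {N : ℕ} (𝒰 : Ultrafilter (Fin N → QB))

theorem gh_cmb (l : Fin N → ℂ) (a : (Fin N → QB) → (Fin N → QB)) :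
    gh 𝒰 ℂ (fun b => cmb l (a b)) =
      ∑ m, gh 𝒰 ℂ (up fun b => a b m) * gh 𝒰 ℂ (fun _ => l m) := by
  simp only [← map_mul, ← map_sum]
  congr 1
  funext b
  rw [Finset.sum_apply]
  rfl

/-- the action of the derivation on combinations -/
theorem der_cmb (k : Fin N)
    (D : Derivation ℤ (Germ (𝒰 : Filter (Fin N → QB)) ℂ) (Germ (𝒰 : Filter (Fin N → QB)) ℂ))
    (hD1 : ∀ a : (Fin N → QB) → QB, ∃ a' : (Fin N → QB) → QB,
        D (gh 𝒰 ℂ (up a)) = gh 𝒰 ℂ (up a'))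
    (hD2 : ∀ z : ℂ, D (gh 𝒰 ℂ (fun _ => z)) = 0)
    (hD3 : ∀ m, D (gh 𝒰 ℂ (up fun b => b m)) = if m = k then 1 else 0)
    (a : (Fin N → QB) → (Fin N → QB)) :
    ∃ a' : (Fin N → QB) → (Fin N → QB), ∀ l : Fin N → ℂ,
      D (gh 𝒰 ℂ (fun b => cmb l (a b))) = gh 𝒰 ℂ (fun b => cmb l (a' b)) ∧
      D (gh 𝒰 ℂ (fun b => cmb l b)) = gh 𝒰 ℂ (fun _ => l k) := by
  choose a' ha' using fun m => hD1 (fun b => a b m)
  refine ⟨fun b m => a' m b, fun l => ⟨?_, ?_⟩⟩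
  · rw [gh_cmb, gh_cmb, map_sum]
    refine Finset.sum_congr rfl fun m _ => ?_
    rw [D.leibniz, hD2, smul_zero, zero_add, ha', smul_eq_mul, mul_comm]
  · rw [gh_cmb 𝒰 l (fun b => b), map_sum, Finset.sum_eq_single k]
    · rw [D.leibniz, hD2, smul_zero, zero_add, hD3, if_pos rfl, smul_eq_mul, mul_one]
    · intro m _ hm
      rw [D.leibniz, hD2, smul_zero, zero_add, hD3, if_neg hm, smul_zero]
    · intro h; exact absurd (Finset.mem_univ k) h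

/-- **Slopes, first case.** -/
theorem ultra_sigma (hgen : ∀ Δ : MvPolynomial (Fin N) QB, Δ ≠ 0 →
      ∀ᶠ b in (𝒰 : Filter (Fin N → QB)), MvPolynomial.eval b Δ ≠ 0)
    (l : Fin N → ℂ) (t₀ : ℂ) (a : (Fin N → QB) → (Fin N → QB)) (S T : Finset ℕ)
    (p : ℕ → ℕ → (Fin N → QB) → QB) (σ : (Fin N → QB) → (ℂ →ₐ[QB] ℂ))
    (h0 : ∀ᶠ b in (𝒰 : Filter (Fin N → QB)),
      ∑ s ∈ S, ∑ t ∈ T, (p s t b : ℂ) * (cmb l b ^ s * (cmb l (a b) + t₀) ^ t) = 0)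
    (h1 : ∀ᶠ b in (𝒰 : Filter (Fin N → QB)),
      ∑ s ∈ S, ∑ t ∈ T,
        (p s t b : ℂ) * (cmb l b ^ s * ((t : ℂ) * (cmb l (a b) + t₀) ^ (t - 1))) ≠ 0)
    (hσ : ∀ᶠ b in (𝒰 : Filter (Fin N → QB)), σ b (cmb l b) = cmb l b ∧
      σ b (cmb l (a b) + t₀) = cmb l (a b) + t₀ ∧ ∃ j, σ b (l j) ≠ l j) :
    ∀ᶠ b in (𝒰 : Filter (Fin N → QB)),
      (∑ s ∈ S, ∑ t ∈ T,
        (p s t b : ℂ) * (((s : ℂ) * cmb l b ^ (s - 1)) * (cmb l (a b) + t₀) ^ t)) /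
      (∑ s ∈ S, ∑ t ∈ T,
        (p s t b : ℂ) * (cmb l b ^ s * ((t : ℂ) * (cmb l (a b) + t₀) ^ (t - 1))))
      ∈ QB := by
  classical
  set x : (Fin N → QB) → ℂ := fun b => cmb l b with hx
  set y : (Fin N → QB) → ℂ := fun b => cmb l (a b) + t₀ with hy
  have key : ∀ k, ∃ a' : (Fin N → QB) → (Fin N → QB), ∃ p' : ℕ → ℕ → (Fin N → QB) → QB,
      ∀ᶠ b in (𝒰 : Filter (Fin N → QB)),
        (∑ s ∈ S, ∑ t ∈ T, (p' s t b : ℂ) * (x b ^ s * y b ^ t)) +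
        (∑ s ∈ S, ∑ t ∈ T, (p s t b : ℂ) * (((s : ℂ) * x b ^ (s - 1)) * y b ^ t)) * l k +
        (∑ s ∈ S, ∑ t ∈ T, (p s t b : ℂ) * (x b ^ s * ((t : ℂ) * y b ^ (t - 1)))) *
          cmb l (a' b) = 0 := by
    intro k
    obtain ⟨D, hD1, hD2, hD3⟩ := exists_ultra_der 𝒰 hgen k
    obtain ⟨a', ha'⟩ := der_cmb 𝒰 k D hD1 hD2 hD3 a
    choose p' hp' using fun s t => hD1 (p s t)
    refine ⟨a', p', ?_⟩
    have hDy : D (gh 𝒰 ℂ y) = gh 𝒰 ℂ (fun b => cmb l (a' b)) := by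
      rw [← (ha' l).1, ← add_zero (D (gh 𝒰 ℂ fun b => cmb l (a b))), ← hD2 t₀, ← map_add,
        ← map_add]
      rfl
    have e1 : ∑ s ∈ S, ∑ t ∈ T, gh 𝒰 ℂ (up (p s t)) * (gh 𝒰 ℂ x ^ s * gh 𝒰 ℂ y ^ t) = 0 := by
      simp only [← map_pow, ← map_mul, ← map_sum]
      rw [gh_eq_zero]
      refine h0.mono fun b hb => ?_
      simp only [Finset.sum_apply, Pi.mul_apply, Pi.pow_apply]
      exact hb
    have e2 := der_sum D S T (fun s t => gh 𝒰 ℂ (up (p s t))) (gh 𝒰 ℂ x) (gh 𝒰 ℂ y)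
    rw [e1, map_zero, hDy, (ha' l).2] at e2
    simp only [hp'] at e2
    have e3 : ∀ n : ℕ, (n : Germ (𝒰 : Filter (Fin N → QB)) ℂ) =
        gh 𝒰 ℂ (fun _ => (n : ℂ)) := by
      intro n
      rw [← map_natCast (gh 𝒰 ℂ) n]
      rfl
    simp only [e3, ← map_pow, ← map_mul, ← map_sum, ← map_add] at e2
    have e4 := (gh_eq_zero 𝒰 _).1 e2.symm
    refine e4.mono fun b hb => ?_
    simp only [Finset.sum_apply, Pi.mul_apply, Pi.pow_apply, Pi.add_apply] at hb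
    exact hb
  choose a' p' hk using key
  have hall := (Filter.eventually_all).2 hk
  filter_upwards [hall, h1, hσ] with b hb hPY hσb
  obtain ⟨s1, s2, j, s3⟩ := hσb
  set PX : ℂ := ∑ s ∈ S, ∑ t ∈ T, (p s t b : ℂ) * (((s : ℂ) * x b ^ (s - 1)) * y b ^ t) with hPX
  set PY : ℂ := ∑ s ∈ S, ∑ t ∈ T, (p s t b : ℂ) * (x b ^ s * ((t : ℂ) * y b ^ (t - 1)))
    with hPY'
  have hc : ∀ c : QB, σ b (c : ℂ) = (c : ℂ) := fun c => (σ b).commutes c
  have f1 : σ b PX = PX := by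
    rw [hPX]
    simp only [map_sum, map_mul, map_pow, map_natCast, hc]
    rw [show σ b (x b) = x b from s1, show σ b (y b) = y b from s2]
  have f2 : σ b PY = PY := by
    rw [hPY']
    simp only [map_sum, map_mul, map_pow, map_natCast, hc]
    rw [show σ b (x b) = x b from s1, show σ b (y b) = y b from s2]
  have g : ∀ k, PX * (σ b (l k) - l k) + PY * ∑ m, (a' k b m : ℂ) * (σ b (l m) - l m) = 0 := by
    intro k
    have g1 := hb k
    have g2 := congrArg (σ b) g1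
    rw [map_zero] at g2
    simp only [map_add] at g2
    rw [map_mul, map_mul, f1, f2] at g2
    have f3 : σ b (∑ s ∈ S, ∑ t ∈ T, (p' k s t b : ℂ) * (x b ^ s * y b ^ t)) =
        ∑ s ∈ S, ∑ t ∈ T, (p' k s t b : ℂ) * (x b ^ s * y b ^ t) := by
      simp only [map_sum, map_mul, map_pow, hc]
      rw [show σ b (x b) = x b from s1, show σ b (y b) = y b from s2]
    have f4 : σ b (cmb l (a' k b)) = ∑ m, (a' k b m : ℂ) * σ b (l m) := by
      rw [cmb, map_sum]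
      refine Finset.sum_congr rfl fun m _ => ?_
      rw [map_mul, AlgHom.commutes]
      rfl
    have f5 : cmb l (a' k b) = ∑ m, (a' k b m : ℂ) * l m := rfl
    rw [f3, f4] at g2
    rw [f5] at g1
    simp only [mul_sub, Finset.sum_sub_distrib]
    linear_combination g2 - g1
  have g' : -(PX / PY) ∈ QB := by
    refine eig_mem (fun k m => a' k b m) (fun m => σ b (l m) - l m)
      ⟨j, sub_ne_zero.mpr s3⟩ (-(PX / PY)) ?_
    intro k
    have := g k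
    field_simp
    linear_combination this
  have := QB.neg_mem g'
  rwa [neg_neg] at this

/-- **Slopes, second case.** -/
theorem ultra_two (hgen : ∀ Δ : MvPolynomial (Fin N) QB, Δ ≠ 0 →
      ∀ᶠ b in (𝒰 : Filter (Fin N → QB)), MvPolynomial.eval b Δ ≠ 0)
    (a : (Fin N → QB) → (Fin N → QB)) (A : (Fin N → QB) → ℂ) (Λ₁ Λ₂ : Fin N → ℂ) (T₁ T₂ : ℂ)
    (h1 : ∀ᶠ b in (𝒰 : Filter (Fin N → QB)), cmb Λ₁ (a b) + T₁ = A b * cmb Λ₁ b)
    (h2 : ∀ᶠ b in (𝒰 : Filter (Fin N → QB)), cmb Λ₂ (a b) + T₂ = A b * cmb Λ₂ b)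
    (h3 : ∀ᶠ b in (𝒰 : Filter (Fin N → QB)), ∃ m, cmb Λ₂ b * Λ₁ m - cmb Λ₁ b * Λ₂ m ≠ 0) :
    ∀ᶠ b in (𝒰 : Filter (Fin N → QB)), A b ∈ QB := by
  classical
  have key : ∀ k, ∃ a' : (Fin N → QB) → (Fin N → QB), ∃ A' : (Fin N → QB) → ℂ,
      ∀ (Λ : Fin N → ℂ) (T : ℂ),
      (∀ᶠ b in (𝒰 : Filter (Fin N → QB)), cmb Λ (a b) + T = A b * cmb Λ b) →
      ∀ᶠ b in (𝒰 : Filter (Fin N → QB)),
        cmb Λ (a' b) = A' b * cmb Λ b + A b * Λ k := by
    intro k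
    obtain ⟨D, hD1, hD2, hD3⟩ := exists_ultra_der 𝒰 hgen k
    obtain ⟨a', ha'⟩ := der_cmb 𝒰 k D hD1 hD2 hD3 a
    obtain ⟨A', hA'⟩ := gh_surj 𝒰 ℂ (D (gh 𝒰 ℂ A))
    refine ⟨a', A', fun Λ T hΛ => ?_⟩
    have e1 : gh 𝒰 ℂ (fun b => cmb Λ (a b)) + gh 𝒰 ℂ (fun _ => T) =
        gh 𝒰 ℂ A * gh 𝒰 ℂ (fun b => cmb Λ b) := by
      rw [← map_mul, ← map_add, gh_eq]
      exact hΛ
    have e2 := congrArg D e1
    rw [map_add, hD2, add_zero, (ha' Λ).1, D.leibniz, (ha' Λ).2, ← hA', smul_eq_mul, smul_eq_mul, ← map_mul, ← map_mul,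
      ← map_add, gh_eq] at e2
    refine e2.mono fun b hb => ?_
    rw [hb]
    simp only [Pi.add_apply, Pi.mul_apply]
    ring
  choose a' A' hk using key
  have e1 := (Filter.eventually_all).2 fun k => hk k Λ₁ T₁ h1
  have e2 := (Filter.eventually_all).2 fun k => hk k Λ₂ T₂ h2
  filter_upwards [e1, e2, h3] with b b1 b2 b3
  refine eig_mem (fun k m => a' k b m) (fun m => cmb Λ₂ b * Λ₁ m - cmb Λ₁ b * Λ₂ m) b3 (A b) ?_
  intro k
  have c1 := b1 k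
  have c2 := b2 k
  have c3 : ∀ Λ : Fin N → ℂ, cmb Λ (a' k b) = ∑ m, (a' k b m : ℂ) * Λ m := fun Λ => rfl
  rw [c3] at c1 c2
  have c4 : ∑ m, (a' k b m : ℂ) * (cmb Λ₂ b * Λ₁ m - cmb Λ₁ b * Λ₂ m) =
      cmb Λ₂ b * ∑ m, (a' k b m : ℂ) * Λ₁ m - cmb Λ₁ b * ∑ m, (a' k b m : ℂ) * Λ₂ m := by
    rw [Finset.mul_sum, Finset.mul_sum, ← Finset.sum_sub_distrib]
    refine Finset.sum_congr rfl fun m _ => ?_
    ring
  rw [c4, c1, c2]
  ring

end Pool.Agent.TH519.GL
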