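import Pool.Agent.TH519.GL.U3

/-!
# All other combinations have large degree over a generic combination
-/

set_option autoImplicit false

namespace Pool.Agent.TH519.GL

open Polynomial IntermediateField Module Filter Pool.Agent.W256 Pool.Agent.H297R2
open Pool.Agent.H301R2.SSE (QB Lt Lt_one Lt_log mem_QB)
open Pool.Agent.H351R3.Gel (Good)

/-- ultrafilters of generic points of a set which is not contained in a hypersurface -/
theorem exists_ultra {K : Type} [Field K] {N : ℕ} (B : Set (Fin N → K))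
    (hB : ∀ Δ : MvPolynomial (Fin N) K, Δ ≠ 0 → ∃ b ∈ B, MvPolynomial.eval b Δ ≠ 0) :
    ∃ 𝒰 : Ultrafilter (Fin N → K), (∀ᶠ b in (𝒰 : Filter (Fin N → K)), b ∈ B) ∧
      ∀ Δ : MvPolynomial (Fin N) K, Δ ≠ 0 →
        ∀ᶠ b in (𝒰 : Filter (Fin N → K)), MvPolynomial.eval b Δ ≠ 0 := by
  let F : Filter (Fin N → K) :=
    { sets := {S | ∃ Δ : MvPolynomial (Fin N) K, Δ ≠ 0 ∧
        ∀ b ∈ B, MvPolynomial.eval b Δ ≠ 0 → b ∈ S}
      univ_sets := ⟨1, one_ne_zero, fun b _ _ => Set.mem_univ b⟩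
      sets_of_superset := by
        rintro S S' ⟨Δ, h1, h2⟩ hS
        exact ⟨Δ, h1, fun b hb h => hS (h2 b hb h)⟩
      inter_sets := by
        rintro S S' ⟨Δ, h1, h2⟩ ⟨Δ', h1', h2'⟩
        refine ⟨Δ * Δ', mul_ne_zero h1 h1', fun b hb h => ?_⟩
        rw [map_mul] at h
        exact ⟨h2 b hb (left_ne_zero_of_mul h), h2' b hb (right_ne_zero_of_mul h)⟩ }
  have hF : F.NeBot := by
    rw [neBot_iff, Ne, ← empty_mem_iff_bot]
    rintro ⟨Δ, h1, h2⟩
    obtain ⟨b, hb, h3⟩ := hB Δ h1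
    exact h2 b hb h3
  refine ⟨Ultrafilter.of F, ?_, fun Δ hΔ => ?_⟩
  · exact Ultrafilter.of_le F (show B ∈ F from ⟨1, one_ne_zero, fun b hb _ => hb⟩)
  · exact Ultrafilter.of_le F (show {b | MvPolynomial.eval b Δ ≠ 0} ∈ F from
      ⟨Δ, hΔ, fun b _ h => h⟩)

/-- a derivation which does not vanish at a transcendental element -/
theorem exists_D {K : Type*} [Field K] [Algebra K ℂ] (z : ℂ) (hz : Transcendental K z) :
    ∃ D : Derivation ℤ ℂ ℂ, (∀ a : K, D (algebraMap K ℂ a) = 0) ∧ D z = 1 := by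
  set f : K[X] →+* ℂ := (aeval z : K[X] →ₐ[K] ℂ).toRingHom with hf
  have hinj : Function.Injective f := transcendental_iff_injective.1 hz
  set θ : K[X] →+* DualNumber ℂ := eval₂RingHom ((TrivSqZeroExt.inlHom ℂ ℂ).comp (algebraMap K ℂ))
    (TrivSqZeroExt.inl z + TrivSqZeroExt.inr 1) with hθ
  have h1 : ((TrivSqZeroExt.fstHom ℂ ℂ ℂ).toRingHom).comp θ = f := by
    apply Polynomial.ringHom_ext
    · intro r
      simp [hθ, hf]
    · simp [hθ, hf]
  obtain ⟨D, hD⟩ := exists_der f hinj θ (fun r => RingHom.congr_fun h1 r)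
  refine ⟨D, fun a => ?_, ?_⟩
  · have := hD (C a)
    simpa [hθ, hf] using this
  · have := hD X
    simpa [hθ, hf] using this

theorem der_cmb' {N : ℕ} (D : Derivation ℤ ℂ ℂ) (hD : ∀ a : QB, D (algebraMap QB ℂ a) = 0)
    (l : Fin N → ℂ) (b : Fin N → QB) : D (cmb l b) = cmb (fun m => D (l m)) b := by
  rw [cmb, cmb, map_sum]
  refine Finset.sum_congr rfl fun m _ => ?_
  rw [D.leibniz, hD, smul_zero, add_zero, smul_eq_mul]

theorem aevalAeval_sum (x y : ℂ) (P : QB[X][X]) (e E : ℕ) (he : P.natDegree ≤ e)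
    (hE : ∀ t, (P.coeff t).natDegree ≤ E) :
    aevalAeval x y P = ∑ s ∈ Finset.range (E + 1), ∑ t ∈ Finset.range (e + 1),
      (((P.coeff t).coeff s : QB) : ℂ) * (x ^ s * y ^ t) := by
  rw [aevalAeval_eq_eval₂, eval₂_eq_sum_range' _ (Nat.lt_succ_of_le he), Finset.sum_comm]
  refine Finset.sum_congr rfl fun t _ => ?_
  change aeval x (P.coeff t) * _ = _
  rw [aeval_eq_sum_range' (Nat.lt_succ_of_le (hE t)), Finset.sum_mul]
  refine Finset.sum_congr rfl fun s _ => ?_
  rw [Algebra.smul_def, mul_assoc]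
  rfl

theorem aevalAeval_der (x y : ℂ) (P : QB[X][X]) (e E : ℕ) (he : P.natDegree ≤ e)
    (hE : ∀ t, (P.coeff t).natDegree ≤ E) :
    aevalAeval x y (derivative P) = ∑ s ∈ Finset.range (E + 1), ∑ t ∈ Finset.range (e + 1),
      (((P.coeff t).coeff s : QB) : ℂ) * (x ^ s * ((t : ℂ) * y ^ (t - 1))) := by
  conv_lhs => rw [as_sum_range' P (e + 1) (Nat.lt_succ_of_le he)]
  rw [derivative_sum, map_sum, Finset.sum_comm]
  refine Finset.sum_congr rfl fun t _ => ?_
  rw [derivative_monomial, ← C_mul_X_pow_eq_monomial, map_mul, aevalAeval_C, map_pow,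
    aevalAeval_Y, map_mul, map_natCast, aeval_eq_sum_range' (Nat.lt_succ_of_le (hE t)),
    Finset.sum_mul, Finset.sum_mul]
  refine Finset.sum_congr rfl fun s _ => ?_
  rw [Algebra.smul_def, mul_assoc, mul_assoc]
  rfl

/-- a relation whose derivative does not vanish -/
theorem exists_smooth (x y : ℂ) (hx : Transcendental QB x) (P : QB[X][X]) (hP0 : P ≠ 0)
    (e E : ℕ) (he : P.natDegree ≤ e) (hE : ∀ t, (P.coeff t).natDegree ≤ E)
    (hP : aevalAeval x y P = 0) :
    ∃ p : ℕ → ℕ → QB,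
      ∑ s ∈ Finset.range (E + 1), ∑ t ∈ Finset.range (e + 1),
        (p s t : ℂ) * (x ^ s * y ^ t) = 0 ∧
      ∑ s ∈ Finset.range (E + 1), ∑ t ∈ Finset.range (e + 1),
        (p s t : ℂ) * (x ^ s * ((t : ℂ) * y ^ (t - 1))) ≠ 0 := by
  classical
  induction hn : P.natDegree using Nat.strong_induction_on generalizing P with
  | _ n ih =>
    by_cases h0 : aevalAeval x y (derivative P) = 0
    · by_cases h1 : derivative P = 0
      · exfalso
        have h2 := Polynomial.derivative_eq_zero.1 h1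
        rw [eq_C_of_natDegree_eq_zero h2, aevalAeval_C] at hP
        apply hP0
        rw [eq_C_of_natDegree_eq_zero h2, C_eq_zero]
        by_contra h3
        exact hx ⟨_, h3, hP⟩
      · have h2 : P.natDegree ≠ 0 := by
          intro h3
          apply h1
          rw [eq_C_of_natDegree_eq_zero h3, derivative_C]
        have h3 := natDegree_derivative_lt h2
        refine ih _ (hn ▸ h3) (derivative P) h1 (h3.le.trans he) ?_ h0 rfl
        intro t
        rw [coeff_derivative]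
        refine natDegree_mul_le.trans ?_
        have h4 : ((t : QB[X]) + 1).natDegree = 0 := by
          have : (t : QB[X]) + 1 = C ((t : QB) + 1) := by simp
          rw [this, natDegree_C]
        rw [h4, add_zero]
        exact hE _
    · refine ⟨fun s t => (P.coeff t).coeff s, ?_, ?_⟩
      · rw [← aevalAeval_sum x y P e E he hE, hP]
      · rw [← aevalAeval_der x y P e E he hE]
        exact h0

/-- slopes are transcendental -/
theorem slope_notMem (x y : ℂ) (hxy : ∀ s : QB, y - algebraMap QB ℂ s * x ∉ QB) (r : ℂ)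
    (hr : ∀ D : Derivation ℤ ℂ ℂ, (∀ a : QB, D (algebraMap QB ℂ a) = 0) → D y = r * D x) :
    r ∉ QB := by
  intro hrQ
  obtain ⟨D, hD1, hD2⟩ := exists_D (K := QB) _ (tr_iff.mpr (hxy ⟨r, hrQ⟩))
  rw [map_sub, D.leibniz, hD1, smul_zero, add_zero, hr D hD1] at hD2
  have h3 : algebraMap QB ℂ ⟨r, hrQ⟩ = r := rfl
  rw [h3, smul_eq_mul, sub_self] at hD2
  exact zero_ne_one hD2

/-- the degree does not increase in subextensions -/
theorem degLe_of_mem {d : ℕ} {h t z : ℂ} (hh : Transcendental QB h) (hd : DegLe QB d h t)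
    (hmem : z ∈ QB⟮h⟯⟮t⟯) : DegLe QB d h z := by
  obtain ⟨halgt, hdt⟩ := hd.minpoly_le hh QB⟮h⟯ (AdjoinSimple.gen QB h)
    (AdjoinSimple.algebraMap_gen QB h)
  have hfd : FiniteDimensional QB⟮h⟯ QB⟮h⟯⟮t⟯ := adjoin.finiteDimensional halgt.isIntegral
  set z' : QB⟮h⟯⟮t⟯ := ⟨z, hmem⟩ with hz
  have hzy : algebraMap QB⟮h⟯⟮t⟯ ℂ z' = z := rfl
  have hint : IsIntegral QB⟮h⟯ z' := Algebra.IsIntegral.isIntegral z'
  have hmin : minpoly QB⟮h⟯ z = minpoly QB⟮h⟯ z' := by
    rw [← hzy]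
    exact minpoly.algebraMap_eq (algebraMap QB⟮h⟯⟮t⟯ ℂ).injective z'
  apply degLe_of_minpoly
  · rw [← hzy]
    exact hint.isAlgebraic.algebraMap
  · rw [hmin]
    refine (minpoly.natDegree_le z').trans ?_
    rw [adjoin.finrank halgt.isIntegral]
    exact hdt

end Pool.Agent.TH519.GL
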