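import Pool.Agent.TH519.GL.U5
import Pool.Agent.TH519.GL.Final

/-!
# The elements of the span of the logarithms and one more number
-/

set_option autoImplicit false

namespace Pool.Agent.TH519.GL

open Polynomial IntermediateField Module Filter Pool.Agent.W256 Pool.Agent.H297R2
open Pool.Agent.H301R2.SSE (QB Lt Lt_one Lt_log mem_QB)

theorem exists_form_of_span {N : ℕ} (l : Fin N → ℂ) (t y : ℂ)
    (hy : y ∈ Submodule.span QB ({1, t} ∪ Set.range l)) :
    ∃ (a₀ s : QB) (a : Fin N → QB), y = algebraMap QB ℂ a₀ + algebraMap QB ℂ s * t + cmb l a := by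
  rw [Submodule.span_union, Submodule.mem_sup] at hy
  obtain ⟨u, hu, v, hv, rfl⟩ := hy
  obtain ⟨a₀, s, rfl⟩ := Submodule.mem_span_pair.mp hu
  obtain ⟨a, rfl⟩ := (Submodule.mem_span_range_iff_exists_fun QB).mp hv
  refine ⟨a₀, s, a, ?_⟩
  rw [Algebra.smul_def, Algebra.smul_def, mul_one, cmb]
  congr 1

theorem every_other_span {N : ℕ} (l : Fin N → ℂ) (halg : ∀ j, IsAlgebraic ℚ (Complex.exp (l j)))
    (hli : LinearIndependent ℚ l) (t : ℂ) :
    ∃ Δ : MvPolynomial (Fin N) QB, Δ ≠ 0 ∧ ∀ b : Fin N → QB, MvPolynomial.eval b Δ ≠ 0 →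
      ∀ y ∈ Submodule.span QB ({1, t} ∪ Set.range l), y ∉ Submodule.span QB {1, cmb l b} →
        ∀ d, DegLe QB d (cmb l b) y → (N + 1) ^ 2 / 4 ≤ d := by
  classical
  rcases Nat.eq_zero_or_pos N with hN | hN
  · subst hN
    exact ⟨1, one_ne_zero, fun b _ y _ _ d _ => by simp⟩
  obtain ⟨Δ₁, h1, h1'⟩ := every_other l halg hli t
  obtain ⟨Δ₂, h2, h2'⟩ := every_other l halg hli 0
  obtain ⟨Δ₃, h3, h3'⟩ := exists_form (⊥ : Submodule QB (Fin N → QB)) (by
    intro h
    have h4 : (Pi.single ⟨0, hN⟩ 1 : Fin N → QB) ∈ (⊥ : Submodule QB (Fin N → QB)) := by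
      rw [h]
      exact Submodule.mem_top
    rw [Submodule.mem_bot] at h4
    have := congrFun h4 ⟨0, hN⟩
    simp at this)
  refine ⟨Δ₁ * Δ₂ * Δ₃, mul_ne_zero (mul_ne_zero h1 h2) h3, ?_⟩
  intro b hb y hy hyx d hd
  rw [map_mul, map_mul] at hb
  have hb1 := left_ne_zero_of_mul (left_ne_zero_of_mul hb)
  have hb2 := right_ne_zero_of_mul (left_ne_zero_of_mul hb)
  have hb3 := right_ne_zero_of_mul hb
  have hxt : Transcendental QB (cmb l b) := by
    rw [tr_iff]
    intro h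
    apply h3' b hb3
    rw [Submodule.mem_bot]
    exact cmb_notMem l halg hli b h
  obtain ⟨a₀, s, a, hya⟩ := exists_form_of_span l t y hy
  have hyy : y ∈ QB⟮cmb l b⟯⟮y⟯ := mem_adjoin_simple_self _ y
  have hQ : ∀ c : QB, algebraMap QB ℂ c ∈ QB⟮cmb l b⟯⟮y⟯ := by
    intro c
    rw [IsScalarTower.algebraMap_apply QB QB⟮cmb l b⟯ ℂ]
    exact IntermediateField.algebraMap_mem _ _
  by_cases hs : s = 0
  · have e1 : cmb l a + 0 = y - algebraMap QB ℂ a₀ := by
      rw [hya, hs, map_zero]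
      ring
    refine h2' b hb2 a ?_ d ?_
    · intro r hr
      apply hyx
      rw [e1] at hr
      rw [Submodule.mem_span_pair]
      refine ⟨⟨_, hr⟩ + a₀, r, ?_⟩
      rw [Algebra.smul_def, Algebra.smul_def, map_add, mul_one]
      have : algebraMap QB ℂ ⟨_, hr⟩ = y - algebraMap QB ℂ a₀ - algebraMap QB ℂ r * cmb l b := rfl
      rw [this]
      ring
    · rw [e1]
      exact degLe_of_mem hxt hd (sub_mem hyy (hQ _))
  · have hs' : algebraMap QB ℂ s ≠ 0 := by simpa using hs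
    have e1 : cmb l (s⁻¹ • a) + t = algebraMap QB ℂ s⁻¹ * (y - algebraMap QB ℂ a₀) := by
      rw [cmb_smul, hya, map_inv₀]
      field_simp
      ring
    refine h1' b hb1 (s⁻¹ • a) ?_ d ?_
    · intro r hr
      apply hyx
      rw [e1] at hr
      rw [Submodule.mem_span_pair]
      refine ⟨s * ⟨_, hr⟩ + a₀, s * r, ?_⟩
      rw [Algebra.smul_def, Algebra.smul_def, map_add, map_mul, map_mul, mul_one]
      have : algebraMap QB ℂ ⟨_, hr⟩ = algebraMap QB ℂ s⁻¹ * (y - algebraMap QB ℂ a₀) -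
        algebraMap QB ℂ r * cmb l b := rfl
      rw [this, map_inv₀]
      field_simp
      ring
    · rw [e1]
      exact degLe_of_mem hxt hd (mul_mem (hQ _) (sub_mem hyy (hQ _)))

end Pool.Agent.TH519.GL
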